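import Pool.Agent.N485.MGCore

set_option autoImplicit false

/-!
# Closed subgroups of the product of a minimal abelian group and a compact group are minimal
-/

open Pool.Agent.N485.MG

namespace Pool.Agent.Results.MP_35204b_gt.CMinimal

/-- Let `A` be a minimal abelian Hausdorff topological group and `K` a compact Hausdorff topological
group (not necessarily abelian). Then `A × K` is c-minimal: every closed subgroup `H` of `A × K` is
minimal, i.e. has no strictly coarser Hausdorff group topology. -/
theorem result (A K : Type) [CommGroup A] [TopologicalSpace A] [IsTopologicalGroup A] [T2Space A]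
    [Group K] [TopologicalSpace K] [IsTopologicalGroup K] [CompactSpace K] [T2Space K]
    (hA : MinGrp A) (H : Subgroup (A × K)) (hH : IsClosed (H : Set (A × K))) : MinGrp H := by
  obtain ⟨B, _, _, _, _, _, i, hi, hd⟩ := exists_compact A hA
  exact main1 i hi hd hA H hH

end Pool.Agent.Results.MP_35204b_gt.CMinimal
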